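import Pool.Agent.Q209.SG.Main

/-!
# MP_e6ac2b_gt: a regular separable quasitopological group which is not completely regular

**Theorem** (full answer to Q1 and Q2, both positive). There is a regular separable quasitopological
group `G` which is not completely regular. It is commutative and Boolean: `x * x = 1` for all `x`.
In particular `G` is a regular separable semitopological group which is not completely regular.

**The group.** Let `C` be the Cantor set of all sequences of bits, and `μ : C → ℕ` a function such that
every set `μ⁻¹ (m)` meets every residual set in every nonempty open set. Such a function is obtained from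
a choice of representatives for eventual equality of sequences. Let `D = ℕ × 2^{<ω}` be the set of
the nodes `d = (m, σ)`: infinitely many copies (blocks) of the binary tree. `G` is the free Boolean
group over the disjoint union of `D` and `C`, i.e. the group of the pairs `(s, α)` of finite
subsets of `D` and `C` with the symmetric differences.

**The topology.** The nodes `(μ (b), b | k)` and `(μ (b) + 1, b | k)`, `k → ∞`, shall converge to `b ∈ C`,
and the points `b` with `μ (b) → ∞` (all but finitely many of them in each block) shall converge to the
neutral element. A basic neighbourhood of the neutral element is given by functions `N, n, S` of the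
finite set `s ⊂ D` with values in `ℕ`, `ℕ` and the finite subsets of `C`. It consists of the `(s, α)` which
can be reached from the neutral element by the following steps.
* A point `b` is added to `α`, or removed from `α`, and a node `d` which is an initial segment of `b`,
  longer than `N (s)` and than all the nodes in `s`, and not an initial segment of any other point
  of `S (s) ∪ α`, is added to `s`. If `b ∈ S (s) ∪ α` the block of `d` has to be `μ (b)` or `μ (b) + 1`,
  otherwise it suffices that the distance to these two blocks is at most `|d| - N (s)`.
* A point `b` which is not in `S (s) ∪ α` and with `μ (b) ≥ n (s)` is added to `α`.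
So for most of the points `b` also nodes in other blocks are near to `b`, but not for the finitely
many *resolved* points in `S (s) ∪ α`. The translates are the basic neighbourhoods of the other
points. The basic neighbourhoods are open.

**Regularity.** There is a closed set between the basic neighbourhoods for `(N, n, S)` and
`(N + 1, n + 1, S)`, if `n` grows sufficiently fast: a similar system of derivations in which each
point `b` in `α` remembers the blocks of the nodes which may replace it; it suffices that one of the
blocks `μ (b)`, `μ (b) + 1` is among them.

**No complete regularity.** If a continuous `f : G → [0, 1]` is `1` at the points of the block `0`, it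
is `1` at all the points of block `m` in a residual set, by induction on `m` (Baire category), so
`f (1) = 1`. But the neutral element is not in the closure of the points of the block `0`.
The nodes generate a dense countable subgroup.
-/

set_option autoImplicit false

namespace Pool.Agent.Results.MP_e6ac2b_gt.SeparableNotTychonoff

/-- Quasitopological groups: all translations and the inversion are continuous. -/
def Quasitopological (G : Type) [Group G] [TopologicalSpace G] : Prop :=
  (∀ a : G, Continuous fun x : G => a * x) ∧ (∀ a : G, Continuous fun x : G => x * a) ∧
    Continuous fun x : G => x⁻¹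

/-- Regular spaces (with `T₁`). -/
def Regular (X : Type) [TopologicalSpace X] : Prop :=
  T1Space X ∧ ∀ (F : Set X) (x : X), IsClosed F → x ∉ F →
    ∃ U V : Set X, IsOpen U ∧ IsOpen V ∧ x ∈ U ∧ F ⊆ V ∧ Disjoint U V

/-- Completely regular spaces (with `T₁`). -/
def CompletelyRegular (X : Type) [TopologicalSpace X] : Prop :=
  T1Space X ∧ ∀ (F : Set X) (x : X), IsClosed F → x ∉ F →
    ∃ f : X → ℝ, Continuous f ∧ (∀ y, 0 ≤ f y ∧ f y ≤ 1) ∧ f x = 0 ∧ ∀ y ∈ F, f y = 1

/-- **There is a regular separable quasitopological group which is not completely regular.** -/
theorem result : ∃ (G : Type) (_ : CommGroup G) (_ : TopologicalSpace G),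
    Quasitopological G ∧ (∀ x : G, x * x = 1) ∧ Regular G ∧ TopologicalSpace.SeparableSpace G ∧
      ¬ CompletelyRegular G := by
  refine ⟨Pool.Agent.Q209.SG.Grp Pool.Agent.Q209.SG.mu, inferInstance, inferInstance,
    ⟨Pool.Agent.Q209.SG.continuous_mul_left', Pool.Agent.Q209.SG.continuous_mul_right',
      Pool.Agent.Q209.SG.continuous_inv'⟩, Pool.Agent.Q209.SG.sq_eq, ⟨inferInstance, ?_⟩,
      inferInstance, ?_⟩
  · intro F x hF hx
    have h1 := RegularSpace.regular hF hx
    rw [← nhdsSet_singleton, ← separatedNhds_iff_disjoint] at h1
    obtain ⟨V, U, hV, hU, hFV, hxU, hUV⟩ := h1
    exact ⟨U, V, hU, hV, hxU rfl, hFV, hUV.symm⟩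
  · rintro ⟨-, h⟩
    refine Pool.Agent.Q209.SG.not_completelyRegular ⟨fun x F hF hx => ?_⟩
    obtain ⟨f, hf, h01, hfx, hfF⟩ := h F x hF hx
    refine ⟨fun y => ⟨f y, h01 y⟩, hf.subtype_mk _, Subtype.ext hfx, fun y hy => ?_⟩
    exact Subtype.ext (hfF y hy)

end Pool.Agent.Results.MP_e6ac2b_gt.SeparableNotTychonoff
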